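import Mathlib

set_option autoImplicit false
set_option maxHeartbeats 400000

namespace Pool.Agent.Results.MP_0f9f23_al.NotRetract

open MvPolynomial

universe u

variable {K : Type u} [Field K] {n : ℕ}

noncomputable def phi (K : Type u) [Field K] (n : ℕ) :
    MvPolynomial (Fin (n + 3)) K →ₐ[K] MvPolynomial (Fin (n + 3)) K :=
  aeval fun i => if i = 1 then X 1 - 2 * X 2 ^ 3 - X 0 * X 2 ^ 4
    else if i = 2 then X 2 + X 0 * X 2 ^ 2 else X i

noncomputable def io (a : Fin (n + 3) → K) : MvPolynomial (Fin (n + 3)) K →ₐ[K] Polynomial K :=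
  aeval fun i => if i = 1 then
      Polynomial.C (a 1) + Polynomial.C (a 0)⁻¹ * (Polynomial.C (a 2) ^ 2 - Polynomial.X ^ 2)
    else if i = 2 then Polynomial.X else Polynomial.C (a i)

theorem n02 : (0 : Fin (n + 3)) ≠ 2 := by simp [Fin.ext_iff, Nat.mod_eq_of_lt]
theorem n21 : (2 : Fin (n + 3)) ≠ 1 := by simp [Fin.ext_iff, Nat.mod_eq_of_lt]

theorem io_phi (a : Fin (n + 3) → K) (ha : a 0 ≠ 0) (p : MvPolynomial (Fin (n + 3)) K) :
    io a (phi K n p) = (io a p).comp (Polynomial.X + Polynomial.C (a 0) * Polynomial.X ^ 2) := by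
  have h : (Polynomial.C (a 0)⁻¹ * Polynomial.C (a 0) : Polynomial K) = 1 := by
    rw [← map_mul, inv_mul_cancel₀ ha, map_one]
  rw [Polynomial.comp_eq_aeval]
  change ((io a).comp (phi K n)) p = ((Polynomial.aeval _).comp (io a)) p
  congr 1
  refine algHom_ext fun i => ?_
  by_cases h1 : i = 1
  · simp [io, phi, h1, n02, n21]
    linear_combination (2 * Polynomial.X ^ 3 + Polynomial.C (a 0) * Polynomial.X ^ 4) * h
  · by_cases h2 : i = 2
    · simp [io, phi, h2, n02, n21]
    · simp [io, phi, h1, h2]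

theorem const (a : Fin (n + 3) → K) (ha : a 0 ≠ 0) (r : MvPolynomial (Fin (n + 3)) K)
    (hr : ∀ k : ℕ, r ∈ (phi K n ^ (k + 1)).range) : (io a r).natDegree = 0 := by
  have h1 : ∀ (k : ℕ) p, 2 ^ k ∣ (io a ((phi K n ^ k) p)).natDegree := fun k p => by
    induction k with
    | zero => simp
    | succ k ih =>
      rw [pow_succ' (phi K n), AlgHom.mul_apply, io_phi a ha, Polynomial.natDegree_comp, pow_succ]
      refine mul_dvd_mul ih (dvd_of_eq (Eq.symm ?_))
      compute_degree!
  by_contra h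
  obtain ⟨p, hp⟩ := hr (io a r).natDegree
  have h2 := h1 ((io a r).natDegree + 1) p
  rw [show (phi K n ^ ((io a r).natDegree + 1)) p = r from hp] at h2
  have := Nat.le_of_dvd (Nat.pos_of_ne_zero h) h2
  have := Nat.lt_two_pow_self (n := (io a r).natDegree + 1)
  omega

theorem even [CharZero K] (r : MvPolynomial (Fin (n + 3)) K)
    (hr : ∀ k : ℕ, r ∈ (phi K n ^ (k + 1)).range) :
    aeval (fun i => if i = 2 then -X 2 else X i) r = r := by
  have : Infinite K := Infinite.of_injective _ Nat.cast_injective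
  refine mul_left_cancel₀ (X_ne_zero (0 : Fin (n + 3))) (funext fun a => ?_)
  by_cases ha : a 0 = 0
  · simp [ha]
  rw [map_mul, map_mul]
  congr 1
  have h1 : ∀ p, eval a p = (io a p).eval (a 2) := fun p => by
    change aeval a p = ((Polynomial.aeval (a 2)).comp (io a)) p
    congr 1
    refine algHom_ext fun i => ?_
    by_cases h1 : i = 1
    · simp [io, h1]
    · by_cases h2 : i = 2 <;> simp [io, h1, h2, n21]
  have h2 : ∀ p, eval a (aeval (fun i => if i = 2 then -X 2 else X i) p) = (io a p).eval (-a 2) :=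
    fun p => by
    change ((aeval a).comp (aeval _)) p = ((Polynomial.aeval (-a 2)).comp (io a)) p
    congr 1
    refine algHom_ext fun i => ?_
    by_cases h1 : i = 1
    · simp [io, h1, n21.symm]
    · by_cases h2 : i = 2 <;> simp [io, h1, h2, n21]
  rw [h2, h1, Polynomial.eq_C_of_natDegree_eq_zero (const a ha r hr)]
  simp

theorem result (K : Type u) [Field K] [CharZero K] (n : ℕ) (hn : 3 ≤ n) :
    ∃ φ : MvPolynomial (Fin n) K →ₐ[K] MvPolynomial (Fin n) K,
      ¬ ∃ π : MvPolynomial (Fin n) K →ₐ[K] MvPolynomial (Fin n) K,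
        (∀ p, π p ∈ ⨅ k : ℕ, (φ ^ (k + 1)).range) ∧
          ∀ r ∈ ⨅ k : ℕ, (φ ^ (k + 1)).range, π r = r := by
  obtain ⟨n, rfl⟩ : ∃ m, n = m + 3 := ⟨n - 3, by omega⟩
  refine ⟨phi K n, fun ⟨π, h1, h2⟩ => ?_⟩
  have fix : ∀ r, phi K n r = r → π r = r := fun r hr => h2 r (Algebra.mem_iInf.2 fun k =>
    ⟨r, by rw [AlgHom.toRingHom_eq_coe, RingHom.coe_coe, AlgHom.coe_pow]
           exact Function.iterate_fixed hr _⟩)
  have e1 := fix (X 0) (by simp [phi, n02])
  have e2 := fix (X 0 * X 1 + X 2 ^ 2) (by simp [phi, n02, n21]; ring)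
  have e3 := even _ (Algebra.mem_iInf.1 (h1 (X 2)))
  rw [map_add, map_mul, map_pow, e1] at e2
  let s : MvPolynomial (Fin (n + 3)) K →ₐ[K] Polynomial K :=
    aeval fun i => if i = 2 then Polynomial.X else 0
  have e4 : s (π (X 2)) ^ 2 = Polynomial.X ^ 2 := by simpa [s, n02] using congrArg s e2
  have e5 : ∀ p, s (aeval (fun i => if i = 2 then -X 2 else X i) p) =
      Polynomial.aeval (-Polynomial.X : Polynomial K) (s p) := fun p => by
    induction p using MvPolynomial.induction_on with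
    | C a => simp [s]
    | add p q hp hq => simp only [map_add, hp, hq]
    | mul_X p i hp =>
      simp only [map_mul, hp]
      by_cases h2 : i = 2 <;> simp [s, h2]
  have e6 := e5 (π (X 2))
  rw [e3] at e6
  rcases sq_eq_sq_iff_eq_or_eq_neg.1 e4 with e | e <;> rw [e] at e6 <;>
    have e7 := congrArg (Polynomial.eval 1) e6 <;> norm_num at e7

end Pool.Agent.Results.MP_0f9f23_al.NotRetract
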